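import Pool.Agent.H1.CA.TarP
import Pool.Agent.H7.SF.Iter

/-! MG: the limit step -/

open Ordinal Order Set
open scoped ZFSet

namespace CAA

open SF

theorem pf_MG (hCF : T_CF) (hMF : T_MF) (hDO : T_DO) : T_MG := by
  intro D hD G hG β hβ hlim x
  have hbot : 0 < β := by
    rcases (zero_le (a := β)).eq_or_lt with h | h
    · exact absurd (h ▸ hlim.1) (by simp)
    · exact h
  obtain ⟨hB, hBm⟩ := hCF D hD G hG
  obtain ⟨hZ, -, -, -, -, hO, -, -, -, hI⟩ := hB β hβ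
  obtain ⟨N, hN, hVk, -, -, hS, -⟩ := hDO (· ∈ D.B G β) D.κ hZ hI
  induction x using ZFSet.inductionOn with
  | _ x ih =>
  intro hx
  have hxB : ∀ α < β, x ∈ D.B G α := fun α hα => (ZFSet.mem_sep.1 (hx α hα)).1
  have hxr : x.rank < D.κ := (ZFSet.mem_sep.1 (hx 0 hbot)).2
  have hsub : ∀ y ∈ x, y ∈ D.B G β := by
    intro y hy
    refine (ZFSet.mem_sep.1 (ih y hy fun α hα => ZFSet.mem_sep.2 ⟨?_, ?_⟩)).1
    · exact (hB α (hα.trans hβ)).1.trans x (hxB α hα) y hy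
    · exact (ZFSet.rank_lt_of_mem hy).trans hxr
  have hθ : ∀ ρ < D.κ, ρ < D.θ := fun ρ h => h.trans (hD.grd.κχ.trans hD.grd.χθ)
  refine ZFSet.mem_sep.2 ⟨?_, hxr⟩
  have hρ : x.rank.toZFSet ∈ D.B G β := (hO _).2 (hθ _ hxr)
  have hyB : (N.sep fun z => rkS z ∈ x.rank.toZFSet) ∈ D.B G β :=
    (Tm.sep (R := fun _ v => rkS (v 0) ∈ v 2) (f := fun _ v => v 0)
      (Dfb.mem (Tm.rkS (Tm.var 0)) (Tm.var 2)) (Tm.var 0)).1 (· ∈ D.B G β) hZ.toZFm
      (cons N (cons x.rank.toZFSet fun _ => N)) ((In.cons (fun _ => hN) hρ).cons hN)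
  set y : V := N.sep fun z => rkS z ∈ x.rank.toZFSet with hy
  have hyr : y.rank ≤ x.rank := by
    rw [ZFSet.rank_le_iff]
    intro z hz
    have h1 := (ZFSet.mem_sep.1 hz).2
    exact Ordinal.toZFSet_mem_toZFSet_iff.1 h1
  have hyN : y ∈ N := (hVk y).2 ⟨hyB, hyr.trans_lt hxr⟩
  have hxy : ∀ z ∈ x, z ∈ y := by
    intro z hz
    refine ZFSet.mem_sep.2 ⟨(hVk z).2 ⟨hsub z hz, (ZFSet.rank_lt_of_mem hz).trans hxr⟩, ?_⟩
    exact Ordinal.toZFSet_mem_toZFSet_iff.2 (ZFSet.rank_lt_of_mem hz)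
  rcases hS y hyN with h0 | ⟨l, hl, e, heN, heo⟩
  · have : x = ∅ := by
      rw [ZFSet.eq_empty]
      intro z hz
      have := hxy z hz
      rw [h0] at this
      exact ZFSet.notMem_empty z this
    rw [this]
    exact Tm.empty.1 (· ∈ D.B G β) hZ.toZFm (fun _ => N) fun _ => hN
  · have heB : e ∈ D.B G β := ((hVk e).1 heN).1
    have hx' : ∀ α < β, (l.toZFSet.sep fun ξ => app e ξ ∈ x) ∈ D.B G α := by
      intro α hα
      have hα' := hα.trans hβ
      have he : e ∈ D.B G α := hBm α β hα.le hβ heB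
      have hlB : l.toZFSet ∈ D.B G α := ((hB α hα').2.2.2.2.2.1 l).2 (hθ l hl)
      exact (Tm.sep (R := fun _ v => app (v 2) (v 0) ∈ v 3) (f := fun _ v => v 0)
        (Dfb.mem (Tm.app (Tm.var 2) (Tm.var 0)) (Tm.var 3)) (Tm.var 0)).1 (· ∈ D.B G α)
        (hB α hα').1.toZFm (cons l.toZFSet (cons e fun _ => x))
        ((In.cons (fun _ => hxB α hα) he).cons hlB)
    have hx'' := hMF D hD G hG β hβ hlim l hl _ (fun z hz => (ZFSet.mem_sep.1 hz).1) hx'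
    have hfin := (Tm.image (f := fun _ v => v 0) (g := fun _ v => app (v 2) (v 0))
      (Tm.var 0) (Tm.app (Tm.var 2) (Tm.var 0))).1 (· ∈ D.B G β) hZ.toZFm
      (cons (l.toZFSet.sep fun ξ => app e ξ ∈ x) fun _ => e) (In.cons (fun _ => heB) hx'')
    have hEq : x = imS (l.toZFSet.sep fun ξ => app e ξ ∈ x) fun ξ => app e ξ := by
      ext z
      rw [mem_imS]
      constructor
      · intro hz
        obtain ⟨a, ha, hab⟩ := heo.2 z (hxy z hz)
        have h2 := app_eq (svl_of_isFunc heo.1) hab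
        exact ⟨a, ZFSet.mem_sep.2 ⟨ha, by rw [h2]; exact hz⟩, h2⟩
      · rintro ⟨a, ha, rfl⟩
        exact (ZFSet.mem_sep.1 ha).2
    rw [hEq]
    exact hfin

end CAA
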